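import Mathlib
import Pool.Agent.Helper34.ZP.Defs
import Pool.Agent.Helper34.ZP.G1
import Pool.Agent.Helper34.ZP.G2
import Pool.Agent.Helper34.ZP.G2b

/-!
# The rank of an idempotent algebraic map and the maps which factor through it
-/

universe u v w t

open CategoryTheory

namespace Pool.Agent.Helper65.QL

open Pool.Agent.Helper10 Pool.Agent.Helper11.Iso SmProjVar SPre Pool.Agent.Helper34.ZP

variable {k : Type u} [Field k] {K : Type t} [Field K] {Ω : Type v} [Field Ω] [Algebra K Ω]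
  {P : SPre.{u, v, w, t} k K Ω}

/-- the operators of the classes `(gᵗ ⊗ 1) c` are the maps `T g` -/
theorem map_opL_tmap_adj {Z Y : SmProjVar k} {g : P.H Z →ₗ[Ω] P.H Z} (hg : g ∈ Mor P Z Z) :
    ((P.alg (Z.prod Y)).map (tmap (adj g) (LinearMap.id : P.H Y →ₗ[Ω] P.H Y))).map
      (opL P Z Y) = (Mor P Z Y).map (precomp g) := by
  rw [← map_opL_alg, ← Submodule.map_comp, ← Submodule.map_comp]
  congr 1
  refine LinearMap.ext fun c => ?_
  rw [LinearMap.comp_apply, LinearMap.comp_apply, opL_apply, opL_apply, op_tmap, adj_adj hg,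
    LinearMap.id_comp]
  rfl

/-- the rank of `gᵗ ⊗ 1` is the rank of the space of the maps `T g` modulo null maps -/
theorem rho_eq_rdim {Z Y : SmProjVar k} {g : P.H Z →ₗ[Ω] P.H Z} (hg : g ∈ Mor P Z Z) :
    rho P (tmap (adj g) (LinearMap.id : P.H Y →ₗ[Ω] P.H Y)) =
      rdim (Nul P Z Y) ((Mor P Z Y).map (precomp g)) := by
  rw [← map_opL_tmap_adj hg, rdim_map_opL]
  rfl

/-- the same, if there are no null maps -/
theorem finrank_precomp_eq_rho {Z Y : SmProjVar k} (hD : Nul P Z Y = ⊥)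
    {g : P.H Z →ₗ[Ω] P.H Z} (hg : g ∈ Mor P Z Z) :
    Module.finrank Ω ((Mor P Z Y).map (precomp (V' := P.H Y) g)) =
      rho P (tmap (adj g) (LinearMap.id : P.H Y →ₗ[Ω] P.H Y)) := by
  rw [rho_eq_rdim hg, hD]
  unfold rdim
  rw [inf_bot_eq, finrank_bot, Nat.sub_zero]

/-- sums over finitely many idempotents, upper bound -/
theorem sum_rho_fin_le {Z Y : SmProjVar k} {n U : ℕ} (g : Fin n → P.H Z →ₗ[Ω] P.H Z)
    (hg : ∀ i, g i ∈ Mor P Z Z ∧ g i ∘ₗ g i = g i ∧ g i ≠ 0)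
    (hU : ∀ e ∈ Mor P Z Z, e ∘ₗ e = e →
      rho P (tmap e (LinearMap.id : P.H Y →ₗ[Ω] P.H Y)) ≤
        Module.finrank Ω (LinearMap.range e) * U) :
    ∑ i, rho P (tmap (adj (g i)) (LinearMap.id : P.H Y →ₗ[Ω] P.H Y)) ≤
      (∑ i, Module.finrank Ω (LinearMap.range (g i))) * U := by
  rw [Finset.sum_mul]
  refine Finset.sum_le_sum fun i _ => ?_
  have h := hU (adj (g i)) (adj_mem_Mor (hg i).1) (by rw [← adj_comp, (hg i).2.1])
  rwa [finrank_range_adj] at h

/-- the rank of a nonzero map is positive -/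
theorem one_le_finrank_range {Z : SmProjVar k} {g : P.H Z →ₗ[Ω] P.H Z} (hg : g ≠ 0) :
    1 ≤ Module.finrank Ω (LinearMap.range g) := by
  rw [Nat.one_le_iff_ne_zero]
  intro h
  apply hg
  rw [← LinearMap.range_eq_bot]
  exact Submodule.finrank_eq_zero.mp h

/-- the sum of the ranks vanishes iff there are no idempotents -/
theorem sum_rank_eq_zero_iff {Z : SmProjVar k} {n : ℕ} (g : Fin n → P.H Z →ₗ[Ω] P.H Z)
    (hg : ∀ i, g i ≠ 0) : ∑ i, Module.finrank Ω (LinearMap.range (g i)) = 0 ↔ n = 0 := by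
  constructor
  · intro h
    rw [Finset.sum_eq_zero_iff] at h
    by_contra hn
    have h1 := h ⟨0, Nat.pos_of_ne_zero hn⟩ (Finset.mem_univ _)
    have h2 := one_le_finrank_range (hg ⟨0, Nat.pos_of_ne_zero hn⟩)
    omega
  · rintro rfl
    simp

end Pool.Agent.Helper65.QL
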