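import Mathlib
import Pool.Agent.Helper34.ZP.Defs
import Pool.Agent.Helper34.ZP.Rdim
import Pool.Agent.Helper34.ZP.G2
import Pool.Agent.Helper34.ZP.G4
import Pool.Agent.Helper34.ZP.P5c

/-!
# The asymptotic rank of an idempotent algebraic map on large powers
-/

universe u v w t

open CategoryTheory TensorProduct Filter Topology

namespace Pool.Agent.Helper65.QL

open Pool.Agent.Helper10 Pool.Agent.Helper11.Iso SmProjVar SPre Pool.Agent.Helper34.ZP

theorem rdim_sup_le {F V : Type*} [Field F] [AddCommGroup V] [Module F V] [Module.Finite F V]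
    (N S S' : Submodule F V) : rdim N (S ⊔ S') ≤ rdim N S + rdim N S' := by
  rw [rdim_eq, rdim_eq, rdim_eq, Submodule.map_sup]
  exact Submodule.finrank_add_le_finrank_add_finrank _ _

variable {k : Type u} [Field k] {K : Type t} [Field K] {Ω : Type v} [Field Ω] [Algebra K Ω]
  {P : SPre.{u, v, w, t} k K Ω}

theorem tmap_add_left {X Y X' Y' : SmProjVar k} (f f' : P.H X →ₗ[Ω] P.H X')
    (g : P.H Y →ₗ[Ω] P.H Y') : tmap (f + f') g = tmap f g + tmap f' g := by
  unfold tmap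
  rw [TensorProduct.map_add_left, LinearMap.add_comp, LinearMap.comp_add]

/-- the rank is subadditive -/
theorem nr_le_rho_add {Z T : SmProjVar k} (e : P.H Z →ₗ[Ω] P.H Z) :
    nr P (Z.prod T) ≤ rho P (tmap e (LinearMap.id : P.H T →ₗ[Ω] P.H T)) +
      rho P (tmap (LinearMap.id - e) (LinearMap.id : P.H T →ₗ[Ω] P.H T)) := by
  refine le_trans (rdim_mono ?_) (rdim_sup_le _ _ _)
  intro c hc
  have h : c = tmap e LinearMap.id c + tmap (LinearMap.id - e) LinearMap.id c := by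
    rw [← LinearMap.add_apply, ← tmap_add_left, add_sub_cancel, tmap_id, LinearMap.id_apply]
  rw [h]
  exact Submodule.add_mem_sup ⟨c, hc, rfl⟩ ⟨c, hc, rfl⟩

theorem finrank_range_idem {U : Type*} [AddCommGroup U] [Module Ω U] [Module.Finite Ω U]
    {e : U →ₗ[Ω] U} (hee : e ∘ₗ e = e) :
    Module.finrank Ω (LinearMap.range e) +
      Module.finrank Ω (LinearMap.range (LinearMap.id - e)) = Module.finrank Ω U := by
  have h1 : LinearMap.ker e = LinearMap.range (LinearMap.id - e) := by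
    ext x
    rw [LinearMap.mem_ker, LinearMap.mem_range]
    constructor
    · intro h
      exact ⟨x, by rw [LinearMap.sub_apply, LinearMap.id_apply, h, sub_zero]⟩
    · rintro ⟨y, rfl⟩
      have := LinearMap.congr_fun hee y
      rw [LinearMap.comp_apply] at this
      rw [LinearMap.sub_apply, LinearMap.id_apply, map_sub, this, sub_self]
  rw [← h1]
  exact LinearMap.finrank_range_add_finrank_ker e

/-- the form asked for by the captain -/
theorem nr_le_add {Z : SmProjVar k} {e : P.H Z →ₗ[Ω] P.H Z} (_he : e ∈ Mor P Z Z)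
    (_hee : e ∘ₗ e = e) (W : SmProjVar k) :
    nr P (Z.prod W) ≤ rho P (tmap e (LinearMap.id : P.H W →ₗ[Ω] P.H W)) +
      rho P (tmap (LinearMap.id - e) (LinearMap.id : P.H W →ₗ[Ω] P.H W)) :=
  nr_le_rho_add e

theorem finrank_id_sub {Z : SmProjVar k} {e : P.H Z →ₗ[Ω] P.H Z} (hee : e ∘ₗ e = e) :
    Module.finrank Ω (LinearMap.range (LinearMap.id - e)) +
      Module.finrank Ω (LinearMap.range e) = Module.finrank Ω (P.H Z) := by
  rw [add_comm]
  exact finrank_range_idem hee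

/-- the rank of an idempotent algebraic map on large powers -/
theorem tendsto_rho [CharZero Ω] {Z : SmProjVar k} {e : P.H Z →ₗ[Ω] P.H Z}
    (he : e ∈ Mor P Z Z) (hee : e ∘ₗ e = e) (Y : ℕ → SmProjVar k)
    (hY : ∀ l, 1 ≤ nr P ((Y l).prod (Y l)))
    (hlim : Tendsto (fun l => (nr P (Z.prod ((Y l).prod (Y l))) : ℝ) / nr P ((Y l).prod (Y l)))
      atTop (𝓝 (Module.finrank Ω (P.H Z)))) :
    Tendsto (fun l => (rho P (tmap e (LinearMap.id :
      P.H ((Y l).prod (Y l)) →ₗ[Ω] P.H ((Y l).prod (Y l)))) : ℝ) / nr P ((Y l).prod (Y l)))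
      atTop (𝓝 (Module.finrank Ω (LinearMap.range e))) := by
  have hid : (LinearMap.id : P.H Z →ₗ[Ω] P.H Z) ∈ Mor P Z Z := isMap_id Z
  have he' : LinearMap.id - e ∈ Mor P Z Z := Submodule.sub_mem _ hid he
  have hee' : (LinearMap.id - e) ∘ₗ (LinearMap.id - e) = LinearMap.id - e := by
    rw [LinearMap.comp_sub, LinearMap.comp_id, LinearMap.sub_comp, LinearMap.id_comp, hee,
      sub_self, sub_zero]
  have hr := finrank_range_idem (Ω := Ω) hee
  have hr' : (Module.finrank Ω (P.H Z) : ℝ) = Module.finrank Ω (LinearMap.range e) +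
      Module.finrank Ω (LinearMap.range (LinearMap.id - e)) := by
    rw [← hr]; push_cast; ring
  have hlow : Tendsto (fun l => (nr P (Z.prod ((Y l).prod (Y l))) : ℝ) /
      nr P ((Y l).prod (Y l)) - Module.finrank Ω (LinearMap.range (LinearMap.id - e)))
      atTop (𝓝 (Module.finrank Ω (LinearMap.range e))) := by
    have h := hlim.sub_const (Module.finrank Ω (LinearMap.range (LinearMap.id - e)) : ℝ)
    rwa [hr', add_sub_cancel_right] at h
  refine tendsto_of_tendsto_of_tendsto_of_le_of_le hlow tendsto_const_nhds (fun l => ?_)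
    (fun l => ?_)
  · have hpos : (0 : ℝ) < nr P ((Y l).prod (Y l)) := by exact_mod_cast hY l
    have h1 := nr_le_rho_add (T := (Y l).prod (Y l)) e
    have h2 := rho_le Z (Y l) he' hee'
    have h3 : (nr P (Z.prod ((Y l).prod (Y l))) : ℝ) ≤ rho P (tmap e (LinearMap.id :
        P.H ((Y l).prod (Y l)) →ₗ[Ω] P.H ((Y l).prod (Y l)))) +
        Module.finrank Ω (LinearMap.range (LinearMap.id - e)) * nr P ((Y l).prod (Y l)) := by
      exact_mod_cast h1.trans (Nat.add_le_add_left h2 _)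
    change (nr P (Z.prod ((Y l).prod (Y l))) : ℝ) / nr P ((Y l).prod (Y l)) - _ ≤ _
    rw [sub_le_iff_le_add, div_le_iff₀ hpos, add_mul, div_mul_cancel₀ _ hpos.ne']
    exact h3
  · have hpos : (0 : ℝ) < nr P ((Y l).prod (Y l)) := by exact_mod_cast hY l
    have h2 := rho_le Z (Y l) he hee
    change (rho P (tmap e LinearMap.id) : ℝ) / nr P ((Y l).prod (Y l)) ≤ _
    rw [div_le_iff₀ hpos]
    exact_mod_cast h2

theorem adj_idem {Z : SmProjVar k} {g : P.H Z →ₗ[Ω] P.H Z} (hg : g ∘ₗ g = g) :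
    adj g ∘ₗ adj g = adj g := by
  rw [← adj_comp, hg]

/-- the ranks of the adjoints of idempotents: upper bound -/
theorem sum_rho_le [CharZero Ω] {Z : SmProjVar k} (gs : List (P.H Z →ₗ[Ω] P.H Z))
    (hgs : ∀ g ∈ gs, g ∈ Mor P Z Z ∧ g ∘ₗ g = g) (Y : SmProjVar k) :
    (gs.map fun g => rho P (tmap (adj g)
      (LinearMap.id : P.H (Y.prod Y) →ₗ[Ω] P.H (Y.prod Y)))).sum ≤
      (gs.map fun g => Module.finrank Ω (LinearMap.range g)).sum * nr P (Y.prod Y) := by
  induction gs with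
  | nil => simp
  | cons g gs ih =>
    simp only [List.map_cons, List.sum_cons, add_mul]
    refine add_le_add ?_ (ih fun g' hg' => hgs g' (List.mem_cons_of_mem _ hg'))
    obtain ⟨h1, h2⟩ := hgs g List.mem_cons_self
    have h3 := rho_le Z Y (adj_mem_Mor h1) (adj_idem h2)
    rwa [finrank_range_adj] at h3

/-- the ranks of the adjoints of idempotents: limit -/
theorem tendsto_sum_rho [CharZero Ω] {Z : SmProjVar k} (gs : List (P.H Z →ₗ[Ω] P.H Z))
    (hgs : ∀ g ∈ gs, g ∈ Mor P Z Z ∧ g ∘ₗ g = g) (Y : ℕ → SmProjVar k)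
    (hY : ∀ l, 1 ≤ nr P ((Y l).prod (Y l)))
    (hlim : Tendsto (fun l => (nr P (Z.prod ((Y l).prod (Y l))) : ℝ) / nr P ((Y l).prod (Y l)))
      atTop (𝓝 (Module.finrank Ω (P.H Z)))) :
    Tendsto (fun l => (((gs.map fun g => rho P (tmap (adj g) (LinearMap.id :
      P.H ((Y l).prod (Y l)) →ₗ[Ω] P.H ((Y l).prod (Y l))))).sum : ℕ) : ℝ) /
        nr P ((Y l).prod (Y l))) atTop
      (𝓝 (((gs.map fun g => Module.finrank Ω (LinearMap.range g)).sum : ℕ) : ℝ)) := by
  induction gs with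
  | nil => simp
  | cons g gs ih =>
    simp only [List.map_cons, List.sum_cons, Nat.cast_add, add_div]
    refine Tendsto.add ?_ (ih fun g' hg' => hgs g' (List.mem_cons_of_mem _ hg'))
    obtain ⟨h1, h2⟩ := hgs g List.mem_cons_self
    have h3 := tendsto_rho (adj_mem_Mor h1) (adj_idem h2) Y hY hlim
    rwa [finrank_range_adj] at h3

/-- if the numerical ranks grow like the homological ones, the ratios tend to `b ^ 2` -/
theorem tendsto_ratio {a c : ℕ → ℕ} {b d m : ℕ} (hb : 1 ≤ b) (hc : ∀ l, 1 ≤ c l)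
    (hconv : ∀ l, c (l + 1) ^ 2 ≤ c l * c (l + 2)) (hup : ∀ l, c (l + 1) ≤ b ^ 2 * c l)
    (hgr : ∀ l, b ^ (2 * l) ≤ a l * (l + 2) ^ d) (hm : ∃ᶠ l in atTop, a l < m * c l) :
    Tendsto (fun l => (c (l + 1) : ℝ) / c l) atTop (𝓝 ((b : ℝ) ^ 2)) := by
  have hle : ∀ l, (c (l + 1) : ℝ) / c l ≤ (b : ℝ) ^ 2 := by
    intro l
    have h1 : (0 : ℝ) < c l := by exact_mod_cast hc l
    rw [div_le_iff₀ h1]
    exact_mod_cast hup l
  rw [Metric.tendsto_atTop]
  intro ε hε
  by_contra hcon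
  push Not at hcon
  have hall : ∀ l, (c (l + 1) : ℝ) / c l ≤ max 0 ((b : ℝ) ^ 2 - ε) := by
    intro l
    obtain ⟨l', hl', h⟩ := hcon l
    have h1 := P5c_ratio_mono hc hconv hl'
    have h2 := hle l'
    rw [Real.dist_eq, abs_sub_comm, abs_of_nonneg (by linarith)] at h
    exact le_max_of_le_right (h1.trans (by linarith))
  have hb1 : (1 : ℝ) ≤ b := by exact_mod_cast hb
  have hB1 : (1 : ℝ) ≤ (b : ℝ) ^ 2 := one_le_pow₀ hb1
  obtain ⟨L, hL⟩ := P5c_small hb hc hgr (le_max_left _ _)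
    (max_lt (by linarith) (by linarith)) hall m
  obtain ⟨l, hl, h⟩ := (hm.and_eventually (eventually_ge_atTop L)).exists
  exact absurd (hL l h) (by omega)

/-- `c (l + s) / c l → b ^ (2 s)` -/
theorem tendsto_ratio_add {c : ℕ → ℕ} {b : ℕ} (hc : ∀ l, 1 ≤ c l)
    (h : Tendsto (fun l => (c (l + 1) : ℝ) / c l) atTop (𝓝 ((b : ℝ) ^ 2))) (s : ℕ) :
    Tendsto (fun l => (c (l + s) : ℝ) / c l) atTop (𝓝 ((b : ℝ) ^ (2 * s))) := by
  induction s with
  | zero =>
    simp only [add_zero, mul_zero, pow_zero]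
    refine tendsto_const_nhds.congr fun l => ?_
    have h1 : (c l : ℝ) ≠ 0 := by
      have := hc l
      positivity
    rw [div_self h1]
  | succ s ih =>
    have h1 := (h.comp (tendsto_add_atTop_nat s)).mul ih
    have h2 : (b : ℝ) ^ 2 * (b : ℝ) ^ (2 * s) = (b : ℝ) ^ (2 * (s + 1)) := by ring
    rw [h2] at h1
    refine h1.congr fun l => ?_
    have h3 : (c (l + s) : ℝ) ≠ 0 := by
      have := hc (l + s)
      positivity
    simp only [Function.comp_apply]
    rw [div_mul_div_cancel₀ h3, add_assoc]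

/-- the limit of `v / n`, if `d r` bounds it at `r` from above and in the limit from below -/
theorem quant_limit {v n d : ℕ → ℕ} (hn : ∀ l, 1 ≤ n l)
    (h1 : ∀ r, ∀ ε > (0 : ℝ), ∀ᶠ l in atTop, ((d r : ℝ) - ε) * n l ≤ v l)
    (h2 : ∀ r, v r ≤ d r * n r) :
    (∃ D : ℕ, Tendsto (fun l => (v l : ℝ) / n l) atTop (𝓝 D) ∧ (∀ r, d r ≤ D) ∧
      ∃ r, d r = D) ∨ Tendsto (fun l => (v l : ℝ) / n l) atTop atTop := by
  have hpos : ∀ l, (0 : ℝ) < n l := fun l => by exact_mod_cast hn l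
  by_cases hb : BddAbove (Set.range d)
  · left
    have hne : (Set.range d).Nonempty := Set.range_nonempty d
    obtain ⟨r, hr⟩ := Nat.sSup_mem hne hb
    have hle : ∀ i, d i ≤ d r := fun i => by
      rw [hr]
      exact le_csSup hb ⟨i, rfl⟩
    refine ⟨d r, ?_, hle, r, rfl⟩
    rw [Metric.tendsto_atTop]
    intro ε hε
    obtain ⟨L, hL⟩ := eventually_atTop.mp (h1 r (ε / 2) (half_pos hε))
    refine ⟨L, fun l hl => ?_⟩
    have h3 := hL l hl
    have h4 : (v l : ℝ) ≤ d r * n l := by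
      have h5 := (h2 l).trans (Nat.mul_le_mul_right (n l) (hle l))
      exact_mod_cast h5
    have h5 : (d r : ℝ) - ε / 2 ≤ (v l : ℝ) / n l := (le_div_iff₀ (hpos l)).mpr h3
    have h6 : (v l : ℝ) / n l ≤ d r := (div_le_iff₀ (hpos l)).mpr h4
    rw [Real.dist_eq, abs_lt]
    constructor <;> linarith
  · right
    rw [tendsto_atTop]
    intro M
    obtain ⟨_, ⟨r, rfl⟩, hr⟩ := (not_bddAbove_iff.mp hb) ⌈M + 1⌉₊
    have h3 : M + 1 ≤ d r := (Nat.le_ceil _).trans (by exact_mod_cast hr.le)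
    filter_upwards [h1 r 1 one_pos] with l hl
    rw [le_div_iff₀ (hpos l)]
    refine le_trans ?_ hl
    exact mul_le_mul_of_nonneg_right (by linarith) (hpos l).le

end Pool.Agent.Helper65.QL
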